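import Pool.Agent.Helper10.AP.T2

/-!
# (A') blocks T3 and P3: pairs where `x` divides the other modulus
-/

set_option autoImplicit false

open Finset

namespace Pool.Agent.Helper53.AP

open Pool.Agent.Helper57.BG

section

open Pool.Agent.Helper10.AP

variable {p : TD}

theorem cntA (h : p.Ok) (x x' : ℕ) (hx' : x' ∈ p.XX) :
    ((p.I.filter (fun i => i.2.2 = x ∧ x' ∣ i.1 * i.2.1)).card : ℝ) ≤ 4 * (p.Q * p.P) / p.X := by
  have hX := h.hX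
  have hQ := h.hQ
  have hP := h.hP
  have hXx := h.hXX x' hx'
  have hx0 : (0:ℝ) < x' := by linarith
  have hx0' : 0 < x' := by exact_mod_cast hx0
  have h1 : (p.I.filter (fun i => i.2.2 = x ∧ x' ∣ i.1 * i.2.1)).card ≤
      ((Finset.Icc 1 ⌊4 * (p.Q * p.P)⌋₊).filter (fun n => x' ∣ n)).card := by
    apply Finset.card_le_card_of_injOn (fun i => i.1 * i.2.1)
    · intro i hi
      obtain ⟨h2, h3, h4⟩ := Finset.mem_filter.1 (Finset.mem_coe.1 hi)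
      rw [Finset.mem_coe, Finset.mem_filter, Finset.mem_Icc]
      exact ⟨⟨q2_pos h h2, Nat.le_floor (q2_le h h2)⟩, h4⟩
    · intro i hi j hj hij
      obtain ⟨h2, h3, h4⟩ := Finset.mem_filter.1 (Finset.mem_coe.1 hi)
      obtain ⟨h5, h6, h7⟩ := Finset.mem_filter.1 (Finset.mem_coe.1 hj)
      exact q2_inj h h2 h5 hij (h3.trans h6.symm)
  have h2 := card_mult ((Finset.Icc 1 ⌊4 * (p.Q * p.P)⌋₊).filter (fun n => x' ∣ n)) (4 * (p.Q * p.P)) (by positivity)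
    (fun y hy => by
      rw [Finset.mem_filter, Finset.mem_Icc] at hy
      exact ⟨hy.1.1, (Nat.le_floor_iff (by positivity)).1 hy.1.2⟩) x' hx0' (fun y hy => (Finset.mem_filter.1 hy).2)
  calc ((p.I.filter (fun i => i.2.2 = x ∧ x' ∣ i.1 * i.2.1)).card : ℝ)
      ≤ (((Finset.Icc 1 ⌊4 * (p.Q * p.P)⌋₊).filter (fun n => x' ∣ n)).card : ℝ) := by exact_mod_cast h1
    _ ≤ 4 * (p.Q * p.P) / x' := h2
    _ ≤ 4 * (p.Q * p.P) / p.X := div_le_div_of_nonneg_left (by positivity) (by linarith) hXx.1.le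

theorem t3 (hB : Stmt_brB) (p : TD) (h : p.Ok) : p.Sc ≤ 1100 * (p.M + (p.Q * p.P) ^ 2) := by
  classical
  have hX := h.hX
  have hQ := h.hQ
  have hP := h.hP
  have hM := h.hM
  have hS : (0:ℝ) < p.Q * p.P := by positivity
  set F := (p.I ×ˢ p.I).filter
    (fun ii => Nat.Coprime (ii.1.1 * ii.1.2.1) (ii.2.1 * ii.2.2.1) ∧ ii.1.2.2 ≠ ii.2.2.2 ∧
      ii.1.2.2 ∣ ii.2.1 * ii.2.2.1 ∧ ii.2.2.2 ∣ ii.1.1 * ii.1.2.1) with hF
  have e1 : p.Sc = ∑ ii ∈ F, |p.br ii.1 ii.2| := rfl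
  set B : ℝ := 16 * p.M / (p.Q * p.P) ^ 2 + 1 with hBd
  have hB0 : 0 ≤ B := by positivity
  have h1 : ∀ ii ∈ F, |p.br ii.1 ii.2| ≤ B := by
    intro ii hii
    obtain ⟨h2, h3, -, -⟩ := Finset.mem_filter.1 hii
    obtain ⟨h4, h5⟩ := Finset.mem_product.1 h2
    have h6 := br_le hB h h4 h5
    rw [show Nat.gcd (ii.1.1 * ii.1.2.1) (ii.2.1 * ii.2.2.1) = 1 from h3] at h6
    refine h6.trans ?_
    have h7 : 4 * p.M * ((1:ℕ):ℝ) / (p.Q * p.P) ^ 2 + 1 + 12 * p.M / (p.Q * p.P) ^ 2 = B := by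
      rw [hBd]; push_cast; field_simp; ring
    rw [← h7]
    have h8 : 0 ≤ 4 * p.M * ((1:ℕ):ℝ) / (p.Q * p.P) ^ 2 + 1 := by positivity
    split_ifs
    · exact le_rfl
    · linarith
  have hXc : (p.XX.card : ℝ) ≤ 2 * p.X := by
    have h2 := card_cls p.XX p.X (by linarith) (fun x hx => ⟨(h.hXX x hx).1, (h.hXX x hx).2.1⟩) 1 one_pos 0
    have e2 : p.XX.filter (fun x' : ℕ => ((1 : ℕ) : ℤ) ∣ (x' : ℤ) - 0) = p.XX := by
      apply Finset.filter_true_of_mem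
      intro i _
      simp
    rw [e2] at h2
    have e3 : ((1:ℕ):ℝ) = 1 := Nat.cast_one
    rw [e3, div_one] at h2
    linarith
  have h2 : F ⊆ (p.XX ×ˢ p.XX).biUnion (fun z => (p.I.filter (fun i => i.2.2 = z.1 ∧ z.2 ∣ i.1 * i.2.1)) ×ˢ
      (p.I.filter (fun i => i.2.2 = z.2 ∧ z.1 ∣ i.1 * i.2.1))) := by
    intro ii hii
    obtain ⟨h2, h3, h31, h32, h33⟩ := Finset.mem_filter.1 hii
    obtain ⟨h4, h5⟩ := Finset.mem_product.1 h2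
    rw [Finset.mem_biUnion]
    refine ⟨(ii.1.2.2, ii.2.2.2), Finset.mem_product.2 ⟨(mem_I.1 h4).1.2.2, (mem_I.1 h5).1.2.2⟩, ?_⟩
    exact Finset.mem_product.2 ⟨Finset.mem_filter.2 ⟨h4, rfl, h33⟩, Finset.mem_filter.2 ⟨h5, rfl, h32⟩⟩
  have h3 : (F.card : ℝ) ≤ 64 * (p.Q * p.P) ^ 2 := by
    have h4 : (F.card : ℝ) ≤ ∑ z ∈ p.XX ×ˢ p.XX, ((4 * (p.Q * p.P) / p.X) * (4 * (p.Q * p.P) / p.X)) := by
      calc (F.card : ℝ) ≤ ((∑ z ∈ p.XX ×ˢ p.XX, ((p.I.filter (fun i => i.2.2 = z.1 ∧ z.2 ∣ i.1 * i.2.1)) ×ˢ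
            (p.I.filter (fun i => i.2.2 = z.2 ∧ z.1 ∣ i.1 * i.2.1))).card : ℕ) : ℝ) := by
            exact_mod_cast (Finset.card_le_card h2).trans Finset.card_biUnion_le
        _ = ∑ z ∈ p.XX ×ˢ p.XX, ((((p.I.filter (fun i => i.2.2 = z.1 ∧ z.2 ∣ i.1 * i.2.1)) ×ˢ
            (p.I.filter (fun i => i.2.2 = z.2 ∧ z.1 ∣ i.1 * i.2.1))).card : ℕ) : ℝ) := by push_cast; rfl
        _ ≤ _ := by
            refine Finset.sum_le_sum fun z hz => ?_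
            obtain ⟨h5, h6⟩ := Finset.mem_product.1 hz
            rw [Finset.card_product, Nat.cast_mul]
            exact mul_le_mul (cntA h z.1 z.2 h6) (cntA h z.2 z.1 h5) (Nat.cast_nonneg _) (by positivity)
    rw [Finset.sum_const, Finset.card_product, nsmul_eq_mul, Nat.cast_mul] at h4
    refine h4.trans ?_
    calc (p.XX.card : ℝ) * p.XX.card * ((4 * (p.Q * p.P) / p.X) * (4 * (p.Q * p.P) / p.X))
        ≤ (2 * p.X) * (2 * p.X) * ((4 * (p.Q * p.P) / p.X) * (4 * (p.Q * p.P) / p.X)) := by gcongr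
      _ = _ := by field_simp; ring
  rw [e1]
  calc ∑ ii ∈ F, |p.br ii.1 ii.2| ≤ ∑ ii ∈ F, B := Finset.sum_le_sum h1
    _ = (F.card : ℝ) * B := by rw [Finset.sum_const, nsmul_eq_mul]
    _ ≤ (64 * (p.Q * p.P) ^ 2) * B := mul_le_mul_of_nonneg_right h3 hB0
    _ = 1024 * p.M + 64 * (p.Q * p.P) ^ 2 := by rw [hBd]; field_simp; ring
    _ ≤ _ := by
        have : 0 ≤ (p.Q * p.P) ^ 2 := by positivity
        linarith

end

section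

open Pool.Agent.Helper10.AP (card_cls card_mult)

variable {p : PD}

theorem mem_IP {i : ℕ × ℕ × ℕ} : i ∈ p.I ↔ (i.1 ∈ p.QQ ∧ i.2.1 ∈ p.W ∧ i.2.2 ∈ p.LL) ∧
    ¬ i.2.2 ∣ i.1 * i.2.1 := by
  unfold PD.I
  rw [Finset.mem_filter, Finset.mem_product, Finset.mem_product]

theorem q2_posP (h : p.Ok) {i : ℕ × ℕ × ℕ} (hi : i ∈ p.I) : 0 < i.1 * i.2.1 := by
  obtain ⟨⟨h1, h2, h3⟩, h4⟩ := mem_IP.1 hi
  exact Nat.mul_pos (Nat.pos_of_ne_zero (h.hQQ _ h1).1.ne_zero) (h.hW _ h2).1.pos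

theorem q2_gtP (h : p.Ok) {i : ℕ × ℕ × ℕ} (hi : i ∈ p.I) : p.Q * p.P < ((i.1 * i.2.1 : ℕ) : ℝ) := by
  obtain ⟨⟨h1, h2, h3⟩, h4⟩ := mem_IP.1 hi
  have h5 := (h.hQQ _ h1).2.1
  have h6 := (h.hW _ h2).2.1
  have hQ := h.hQ
  have hP := h.hP
  push_cast
  nlinarith

theorem q2_leP (h : p.Ok) {i : ℕ × ℕ × ℕ} (hi : i ∈ p.I) : ((i.1 * i.2.1 : ℕ) : ℝ) ≤ 4 * (p.Q * p.P) := by
  obtain ⟨⟨h1, h2, h3⟩, h4⟩ := mem_IP.1 hi
  have h5 := (h.hQQ _ h1).2.2.1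
  have h6 := (h.hW _ h2).2.2
  have hQ := h.hQ
  have hP := h.hP
  push_cast
  calc (i.1 : ℝ) * i.2.1 ≤ (2 * p.Q) * (2 * p.P) := mul_le_mul h5 h6 (Nat.cast_nonneg _) (by linarith)
    _ = 4 * (p.Q * p.P) := by ring

theorem prime_geP (h : p.Ok) {i : ℕ × ℕ × ℕ} (hi : i ∈ p.I) {r : ℕ} (hr : r.Prime) (hd : r ∣ i.1 * i.2.1) :
    p.D0 ≤ r := by
  obtain ⟨⟨h1, h2, h3⟩, h4⟩ := mem_IP.1 hi
  rcases (Nat.Prime.dvd_mul hr).1 hd with h5 | h5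
  · exact (h.hQQ _ h1).2.2.2.2 r hr h5
  · have h6 := (h.hW _ h2)
    rw [(Nat.prime_dvd_prime_iff_eq hr h6.1).1 h5]
    linarith [h6.2.1, h.hDP]

theorem q2_injP (h : p.Ok) {i j : ℕ × ℕ × ℕ} (hi : i ∈ p.I) (hj : j ∈ p.I) (h1 : i.1 * i.2.1 = j.1 * j.2.1)
    (h2 : i.2.2 = j.2.2) : i = j := by
  obtain ⟨⟨h3, h4, h5⟩, -⟩ := mem_IP.1 hi
  obtain ⟨⟨h6, h7, h8⟩, -⟩ := mem_IP.1 hj
  have h9 : i.2.1 ∣ j.1 * j.2.1 := h1 ▸ Dvd.intro_left _ rfl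
  have h10 : i.2.1 ∣ j.2.1 := (h.hWQ _ h4 _ h6).dvd_of_dvd_mul_left h9
  have h11 : i.2.1 = j.2.1 := (Nat.prime_dvd_prime_iff_eq (h.hW _ h4).1 (h.hW _ h7).1).1 h10
  have h12 : i.1 = j.1 := by
    rw [h11] at h1
    exact Nat.eq_of_mul_eq_mul_right (h.hW _ h7).1.pos h1
  exact Prod.ext h12 (Prod.ext h11 h2)

theorem gcd_kP (h : p.Ok) {q1 : ℕ} (hq1 : Int.gcd p.k q1 = 1) {i : ℕ × ℕ × ℕ} (hi : i ∈ p.I) :
    Int.gcd p.k (q1 * (i.1 * i.2.1) : ℕ) = 1 := by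
  rw [← Int.isCoprime_iff_gcd_eq_one]
  rw [Nat.cast_mul]
  refine IsCoprime.mul_right (Int.isCoprime_iff_gcd_eq_one.2 hq1) ?_
  rw [Int.isCoprime_iff_gcd_eq_one]
  by_contra hne
  obtain ⟨r, hr, hd⟩ := Nat.exists_prime_and_dvd hne
  have h1 : (r : ℤ) ∣ p.k := (Int.natCast_dvd_natCast.2 hd).trans (Int.gcd_dvd_left _ _)
  have h2 : (r : ℤ) ∣ ((i.1 * i.2.1 : ℕ) : ℤ) := (Int.natCast_dvd_natCast.2 hd).trans (Int.gcd_dvd_right _ _)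
  have h3 := prime_geP h hi hr (Int.natCast_dvd_natCast.1 h2)
  have h4 : (r : ℤ) ≤ |p.k| := Int.le_of_dvd (abs_pos.2 h.hk0) ((dvd_abs _ _).2 h1)
  have h5 : (r : ℝ) ≤ |(p.k : ℝ)| := by exact_mod_cast h4
  linarith [h.hkD]

theorem mem_Q1s (h : p.Ok) {q1 : ℕ} (hq : q1 ∈ p.Q1s) : 0 < q1 ∧ p.Q1 < q1 ∧ (q1 : ℝ) ≤ 2 * p.Q1 ∧
    Int.gcd p.k q1 = 1 := by
  have hQ1 := h.hQ1
  unfold PD.Q1s at hq
  obtain ⟨h1, h2⟩ := Finset.mem_filter.1 hq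
  obtain ⟨h3, h4⟩ := Finset.mem_Ioc.1 h1
  have h5 : p.Q1 < q1 := (Nat.floor_lt (by linarith)).1 h3
  have h6 : (q1 : ℝ) ≤ 2 * p.Q1 := (Nat.le_floor_iff (by linarith)).1 h4
  exact ⟨by omega, h5, h6, h2⟩

/-- the bracket of one pair, coprime moduli -/
theorem br_leP (hB : Stmt_brB) (h : p.Ok) {q1 : ℕ} (hq : q1 ∈ p.Q1s) {i j : ℕ × ℕ × ℕ} (hi : i ∈ p.I) (hj : j ∈ p.I)
    (hc : Nat.Coprime (i.1 * i.2.1) (j.1 * j.2.1)) :
    |p.br q1 i j| ≤ if (q1 : ℤ) ∣ (j.2.2 : ℤ) - i.2.2 then 16 * p.M / (p.Q1 * (p.Q * p.P) ^ 2) + 1 else 0 := by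
  have hQ := h.hQ
  have hP := h.hP
  have hM := h.hM
  have hQ1 := h.hQ1
  obtain ⟨h1, h2, h3, h4⟩ := mem_Q1s h hq
  have hq1 : (0:ℝ) < q1 := by exact_mod_cast h1
  have hlpos : ∀ {i : ℕ × ℕ × ℕ}, i ∈ p.I → 0 < i.2.2 := fun hi => (h.hLL _ (mem_IP.1 hi).1.2.2).1.pos
  have hY : ∀ {i : ℕ × ℕ × ℕ}, i ∈ p.I → ((q1 * (i.1 * i.2.1) : ℕ) : ℝ) ≤ 4 * p.M * q1 / p.Q1 := by
    intro i hi
    have h5 := q2_leP h hi
    have h6 := h.hRM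
    rw [Nat.cast_mul, le_div_iff₀ (by linarith)]
    calc (q1 : ℝ) * ((i.1 * i.2.1 : ℕ) : ℝ) * p.Q1 ≤ q1 * (4 * (p.Q * p.P)) * p.Q1 := by gcongr
      _ = 4 * (p.Q1 * p.Q * p.P) * q1 := by ring
      _ ≤ 4 * p.M * q1 := by gcongr
  have h5 := hB (4 * p.M * q1 / p.Q1) (by positivity) p.k q1 (i.1 * i.2.1) i.2.2 (j.1 * j.2.1) j.2.2 h1 (q2_posP h hi)
    (q2_posP h hj) (hlpos hi) (hlpos hj) (gcd_kP h h4 hi) (gcd_kP h h4 hj) (hY hi) (hY hj)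
  rw [show Nat.gcd (i.1 * i.2.1) (j.1 * j.2.1) = 1 from hc, mul_one] at h5
  refine le_trans h5 ?_
  have hS : (0:ℝ) < p.Q * p.P := by positivity
  have h6 : (p.Q * p.P) ^ 2 ≤ ((i.1 * i.2.1 : ℕ) : ℝ) * ((j.1 * j.2.1 : ℕ) : ℝ) := by
    have h7 := q2_gtP h hi
    have h8 := q2_gtP h hj
    calc (p.Q * p.P) ^ 2 = (p.Q * p.P) * (p.Q * p.P) := by ring
      _ ≤ ((i.1 * i.2.1 : ℕ) : ℝ) * ((j.1 * j.2.1 : ℕ) : ℝ) := by gcongr
  have h7 : 4 * p.M * q1 / p.Q1 / ((q1 : ℝ) * ((i.1 * i.2.1 : ℕ) : ℝ) * ((j.1 * j.2.1 : ℕ) : ℝ)) ≤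
      4 * p.M / (p.Q1 * (p.Q * p.P) ^ 2) := by
    rw [div_div, show p.Q1 * ((q1 : ℝ) * ((i.1 * i.2.1 : ℕ) : ℝ) * ((j.1 * j.2.1 : ℕ) : ℝ)) =
      (p.Q1 * (((i.1 * i.2.1 : ℕ) : ℝ) * ((j.1 * j.2.1 : ℕ) : ℝ))) * q1 by ring, mul_div_mul_right _ _ hq1.ne']
    exact div_le_div_of_nonneg_left (by positivity) (by positivity) (mul_le_mul_of_nonneg_left h6 (by linarith))
  have e1 : 16 * p.M / (p.Q1 * (p.Q * p.P) ^ 2) = 4 * (4 * p.M / (p.Q1 * (p.Q * p.P) ^ 2)) := by ring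
  split_ifs
  · rw [Nat.cast_one, mul_one, e1]
    linarith
  · simp

theorem cntB (h : p.Ok) (l g : ℕ) (hg : 0 < g) :
    ((p.I.filter (fun i => i.2.2 = l ∧ g ∣ i.1 * i.2.1)).card : ℝ) ≤ 4 * (p.Q * p.P) / g := by
  have hQ := h.hQ
  have hP := h.hP
  have h1 : (p.I.filter (fun i => i.2.2 = l ∧ g ∣ i.1 * i.2.1)).card ≤
      ((Finset.Icc 1 ⌊4 * (p.Q * p.P)⌋₊).filter (fun n => g ∣ n)).card := by
    apply Finset.card_le_card_of_injOn (fun i => i.1 * i.2.1)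
    · intro i hi
      obtain ⟨h2, h3, h4⟩ := Finset.mem_filter.1 (Finset.mem_coe.1 hi)
      rw [Finset.mem_coe, Finset.mem_filter, Finset.mem_Icc]
      exact ⟨⟨q2_posP h h2, Nat.le_floor (q2_leP h h2)⟩, h4⟩
    · intro i hi j hj hij
      obtain ⟨h2, h3, h4⟩ := Finset.mem_filter.1 (Finset.mem_coe.1 hi)
      obtain ⟨h5, h6, h7⟩ := Finset.mem_filter.1 (Finset.mem_coe.1 hj)
      exact q2_injP h h2 h5 hij (h3.trans h6.symm)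
  have h2 := card_mult ((Finset.Icc 1 ⌊4 * (p.Q * p.P)⌋₊).filter (fun n => g ∣ n)) (4 * (p.Q * p.P)) (by positivity)
    (fun y hy => by
      rw [Finset.mem_filter, Finset.mem_Icc] at hy
      exact ⟨hy.1.1, (Nat.le_floor_iff (by positivity)).1 hy.1.2⟩) g hg (fun y hy => (Finset.mem_filter.1 hy).2)
  exact le_trans (by exact_mod_cast h1) h2

theorem p3 (hB : Stmt_brB) (p : PD) (h : p.Ok) :
    p.Tc ≤ 1100 * p.R0 * (p.M * p.L / p.Q1 + (p.Q * p.P) ^ 2 * p.L) := by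
  classical
  have hQ := h.hQ
  have hP := h.hP
  have hM := h.hM
  have hQ1 := h.hQ1
  have hL := h.hL
  have hL2 : 2 ≤ p.L := by linarith
  have hS : (0:ℝ) < p.Q * p.P := by positivity
  have hS1 : (1:ℝ) ≤ p.Q * p.P := by nlinarith
  set F := (p.I ×ˢ p.I).filter
    (fun ii => Nat.Coprime (ii.1.1 * ii.1.2.1) (ii.2.1 * ii.2.2.1) ∧ ii.1.2.2 ≠ ii.2.2.2 ∧
      ii.1.2.2 ∣ ii.2.1 * ii.2.2.1) with hF
  have e1 : p.Tc = ∑ q1 ∈ p.Q1s, ∑ ii ∈ F, |p.br q1 ii.1 ii.2| := rfl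
  set B : ℝ := 16 * p.M / (p.Q1 * (p.Q * p.P) ^ 2) + 1 with hBd
  have hB0 : 0 ≤ B := by positivity
  have hR0 : 0 ≤ p.R0 := by
    have := h.hR0 1 le_rfl (by
      push_cast
      have : 1 ≤ p.L * (p.Q1 * p.Q * p.P) := by
        have h1 : 1 ≤ p.Q1 * (p.Q * p.P) := by nlinarith
        nlinarith
      nlinarith)
    simp at this
    linarith
  have h1 : ∀ ii ∈ F, ∑ q1 ∈ p.Q1s, |p.br q1 ii.1 ii.2| ≤ p.R0 * B := by
    intro ii hii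
    obtain ⟨h2, h3, h31, h32⟩ := Finset.mem_filter.1 hii
    obtain ⟨h4, h5⟩ := Finset.mem_product.1 h2
    have hl1 := h.hLL _ (mem_IP.1 h4).1.2.2
    have hl2 := h.hLL _ (mem_IP.1 h5).1.2.2
    set n : ℕ := ((ii.2.2.2 : ℤ) - ii.1.2.2).natAbs with hn
    have hn0 : n ≠ 0 := by
      rw [hn, Int.natAbs_ne_zero, sub_ne_zero]
      exact_mod_cast h31.symm
    have hnL : (n : ℝ) ≤ p.L := by
      have : ((n : ℤ) : ℝ) = |((ii.2.2.2 : ℤ) : ℝ) - ((ii.1.2.2 : ℤ) : ℝ)| := by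
        rw [hn, Int.natCast_natAbs]
        push_cast
        rfl
      have e : ((n : ℤ) : ℝ) = (n : ℝ) := by push_cast; rfl
      rw [← e, this, abs_le]
      push_cast
      constructor <;> linarith [hl1.2.1, hl1.2.2, hl2.2.1, hl2.2.2]
    have hcard : (n.divisors.card : ℝ) ≤ p.R0 := by
      refine h.hR0 n (Nat.one_le_iff_ne_zero.2 hn0) (hnL.trans ?_)
      have h1 : 1 ≤ p.Q1 * p.Q * p.P := by
        have h1 : 1 ≤ p.Q1 * (p.Q * p.P) := by nlinarith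
        linarith [mul_assoc p.Q1 p.Q p.P]
      nlinarith
    calc ∑ q1 ∈ p.Q1s, |p.br q1 ii.1 ii.2|
        ≤ ∑ q1 ∈ p.Q1s, (if (q1 : ℤ) ∣ (ii.2.2.2 : ℤ) - ii.1.2.2 then B else 0) :=
          Finset.sum_le_sum fun q1 hq1 => br_leP hB h hq1 h4 h5 h3
      _ = ((p.Q1s.filter (fun q1 : ℕ => (q1 : ℤ) ∣ (ii.2.2.2 : ℤ) - ii.1.2.2)).card : ℝ) * B := by
          rw [← Finset.sum_filter, Finset.sum_const, nsmul_eq_mul]
      _ ≤ (n.divisors.card : ℝ) * B := by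
          refine mul_le_mul_of_nonneg_right ?_ hB0
          have h6 : (p.Q1s.filter (fun q1 : ℕ => (q1 : ℤ) ∣ (ii.2.2.2 : ℤ) - ii.1.2.2)).card ≤ n.divisors.card := by
            refine Finset.card_le_card fun q1 hq1 => ?_
            obtain ⟨_, h7⟩ := Finset.mem_filter.1 hq1
            rw [Nat.mem_divisors]
            exact ⟨Int.natCast_dvd.1 h7, hn0⟩
          exact Nat.cast_le.2 h6
      _ ≤ p.R0 * B := mul_le_mul_of_nonneg_right hcard hB0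
  have hLc : (p.LL.card : ℝ) ≤ 2 * p.L := by
    have h2 := card_cls p.LL p.L (by linarith) (fun x hx => ⟨(h.hLL x hx).2.1, (h.hLL x hx).2.2⟩) 1 one_pos 0
    have e2 : p.LL.filter (fun x' : ℕ => ((1 : ℕ) : ℤ) ∣ (x' : ℤ) - 0) = p.LL := by
      apply Finset.filter_true_of_mem
      intro i _
      simp
    rw [e2] at h2
    have e3 : ((1:ℕ):ℝ) = 1 := Nat.cast_one
    rw [e3, div_one] at h2
    linarith
  have h2 : F ⊆ (p.LL ×ˢ p.LL).biUnion (fun z => (p.I.filter (fun i => i.2.2 = z.1 ∧ 1 ∣ i.1 * i.2.1)) ×ˢ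
      (p.I.filter (fun i => i.2.2 = z.2 ∧ z.1 ∣ i.1 * i.2.1))) := by
    intro ii hii
    obtain ⟨h2, h3, h31, h32⟩ := Finset.mem_filter.1 hii
    obtain ⟨h4, h5⟩ := Finset.mem_product.1 h2
    rw [Finset.mem_biUnion]
    refine ⟨(ii.1.2.2, ii.2.2.2), Finset.mem_product.2 ⟨(mem_IP.1 h4).1.2.2, (mem_IP.1 h5).1.2.2⟩, ?_⟩
    exact Finset.mem_product.2 ⟨Finset.mem_filter.2 ⟨h4, rfl, one_dvd _⟩, Finset.mem_filter.2 ⟨h5, rfl, h32⟩⟩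
  have h3 : (F.card : ℝ) ≤ 64 * (p.Q * p.P) ^ 2 * p.L := by
    have h4 : (F.card : ℝ) ≤ ∑ z ∈ p.LL ×ˢ p.LL, ((4 * (p.Q * p.P)) * (4 * (p.Q * p.P) / p.L)) := by
      calc (F.card : ℝ) ≤ ((∑ z ∈ p.LL ×ˢ p.LL, ((p.I.filter (fun i => i.2.2 = z.1 ∧ 1 ∣ i.1 * i.2.1)) ×ˢ
            (p.I.filter (fun i => i.2.2 = z.2 ∧ z.1 ∣ i.1 * i.2.1))).card : ℕ) : ℝ) := by
            exact_mod_cast (Finset.card_le_card h2).trans Finset.card_biUnion_le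
        _ = ∑ z ∈ p.LL ×ˢ p.LL, ((((p.I.filter (fun i => i.2.2 = z.1 ∧ 1 ∣ i.1 * i.2.1)) ×ˢ
            (p.I.filter (fun i => i.2.2 = z.2 ∧ z.1 ∣ i.1 * i.2.1))).card : ℕ) : ℝ) := by push_cast; rfl
        _ ≤ _ := by
            refine Finset.sum_le_sum fun z hz => ?_
            obtain ⟨h5, h6⟩ := Finset.mem_product.1 hz
            rw [Finset.card_product, Nat.cast_mul]
            have h7 := h.hLL _ h5
            have h8 := cntB h z.1 1 one_pos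
            have e3 : ((1:ℕ):ℝ) = 1 := Nat.cast_one
            rw [e3, div_one] at h8
            have h9 := (cntB h z.2 z.1 h7.1.pos).trans (div_le_div_of_nonneg_left (by positivity) (by linarith)
              (h7.2.1.le) : 4 * (p.Q * p.P) / (z.1 : ℝ) ≤ 4 * (p.Q * p.P) / p.L)
            exact mul_le_mul h8 h9 (Nat.cast_nonneg _) (by positivity)
    rw [Finset.sum_const, Finset.card_product, nsmul_eq_mul, Nat.cast_mul] at h4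
    refine h4.trans ?_
    calc (p.LL.card : ℝ) * p.LL.card * ((4 * (p.Q * p.P)) * (4 * (p.Q * p.P) / p.L))
        ≤ (2 * p.L) * (2 * p.L) * ((4 * (p.Q * p.P)) * (4 * (p.Q * p.P) / p.L)) := by
          have : 0 < p.L := by linarith
          gcongr
      _ = _ := by
          have : p.L ≠ 0 := by linarith
          field_simp; ring
  rw [e1, Finset.sum_comm]
  calc ∑ ii ∈ F, ∑ q1 ∈ p.Q1s, |p.br q1 ii.1 ii.2| ≤ ∑ ii ∈ F, p.R0 * B := Finset.sum_le_sum h1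
    _ = (F.card : ℝ) * (p.R0 * B) := by rw [Finset.sum_const, nsmul_eq_mul]
    _ ≤ (64 * (p.Q * p.P) ^ 2 * p.L) * (p.R0 * B) := mul_le_mul_of_nonneg_right h3 (mul_nonneg hR0 hB0)
    _ = p.R0 * (1024 * (p.M * p.L / p.Q1) + 64 * ((p.Q * p.P) ^ 2 * p.L)) := by rw [hBd]; field_simp; ring
    _ ≤ p.R0 * (1100 * (p.M * p.L / p.Q1) + 1100 * ((p.Q * p.P) ^ 2 * p.L)) := by
        have h5 : 0 ≤ p.M * p.L / p.Q1 := by positivity
        have h6 : 0 ≤ (p.Q * p.P) ^ 2 * p.L := by positivity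
        refine mul_le_mul_of_nonneg_left ?_ hR0
        linarith
    _ = _ := by ring

end

end Pool.Agent.Helper53.AP
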